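import Pool.Agent.TH30.KF.Main

/-!
# Kimura-finiteness of `U(perf_dg X)` and of the Chow motive of `X`

`X : Sch K` records, for a smooth proper scheme, the rings `E n` of the correspondences of all
degrees on `Xⁿ` up to rational equivalence, which are the endomorphism rings of the tensor powers
of `U(perf_dg X)_ℚ` in noncommutative Chow motives (Tabuada), the grading of `E 1` by the degree
(degree zero: the endomorphism ring of the Chow motive of `X`) and the action on cohomology.

`U(perf_dg X)_ℚ` is Kimura-finite (`X.toNC.KimuraFinite`) if and only if the Chow motive of `X` is
(`X.ChowKimuraFinite`). The direction from right to left is the known one. In the other direction a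
Kimura idempotent `p` of mixed degrees acts on cohomology as the projector onto the even part,
which preserves the degree; so its component of degree zero acts in the same way, is idempotent up
to nilpotent correspondences, and can be lifted to an idempotent of degree zero which is conjugate
to `p`.
-/

set_option autoImplicit false

namespace Pool.Agent.Results.MP_6e5bed_ag.ConverseForSchemes

open Pool.Agent.TH30.KF

/-- The noncommutative Chow motive of a smooth proper scheme `X` is Kimura-finite if and only if the
Chow motive of `X` is; if the noncommutative Chow motives of `X` and `Y` are isomorphic then the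
Chow motive of `X` is Kimura-finite if and only if the Chow motive of `Y` is. -/
theorem result {K : Type} [Field K] [CharZero K] (X : Sch K) (hX : X.NilpotenceTheorem) :
    (X.ChowKimuraFinite ↔ X.toNC.KimuraFinite) ∧
    ∀ (Y : Sch K), Y.NilpotenceTheorem → Nonempty (X.toNC.Iso Y.toNC) →
      (X.ChowKimuraFinite ↔ Y.ChowKimuraFinite) := by
  refine ⟨X.chow_iff hX, ?_⟩
  rintro Y hY ⟨φ⟩
  rw [X.chow_iff hX, Y.chow_iff hY]
  exact ⟨fun h => φ.kimuraFinite h, fun h => φ.inv.kimuraFinite h⟩

end Pool.Agent.Results.MP_6e5bed_ag.ConverseForSchemes
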