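import Pool.Agent.TH829.Rig.Main

/-!
# Kimura-finiteness can be checked modulo all prime tensor ideals

Let `𝒜` be a `ℚ`-linear symmetric monoidal category in which all objects have duals and
`End(𝟙) = ℚ`, for example the category `NChow(k)_ℚ` of noncommutative Chow motives, and `M` an
object of `𝒜`.

(1) For each tensor ideal `I`: `M` is Kimura-finite modulo `I` if and only if `M` is Kimura-finite
modulo `P` for each prime tensor ideal `P` containing `I`.

(2) If `𝒜` is idempotent complete: `M` is Kimura-finite if and only if `M` is Kimura-finite modulo
`P` for each prime tensor ideal `P`, that is, for each tensor ideal `P` such that `𝒜/P` is not zero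
and has no zero divisors for the tensor product of morphisms.

So the decompositions of `M` into an even and an odd part modulo the various prime ideals need not
be compatible.

Proof. The ideal `N` of the numerically trivial morphisms is prime and contains all others. Let `e`
be the projector onto the even part modulo `N` and `f` the one modulo `P`. Modulo `N`, a composition
of morphisms from an even object to an odd one and back is nilpotent of trace zero, so `e - f` is
numerically trivial. Modulo `P` the numerically trivial endomorphisms of `M` are nilpotent (Kimura,
André-Kahn; the argument, by partial traces of (anti)symmetrized tensor products, is carried out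
here modulo `P`, using only that the identity of `𝟙` does not belong to `P`, together with the
theorem of Nagata and Higman). So `e ≫ e - e` is nilpotent modulo each `P`, and then it is nilpotent
modulo `I`: a tensor ideal which is maximal among those that do not contain any `(x^k)^{⊗n}` is
prime. Lift `e` to an idempotent `e'` modulo `I`. Modulo `P` it is congruent to `f` up to nilpotent
endomorphisms, hence conjugate to `f`, so it defines an even object modulo each `P`. Finally, a
tensor ideal which is maximal among those containing `I` and no `Λ^n (M, e')` is prime; so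
`Λ^n (M, e')` is zero modulo `I` for some `n`. The argument for the odd part is the same.

The definitions of the tensor powers and of `KimuraFinite` are those of `TensorCancellation` (this
folder), prime tensor ideals are those of `LocalOnPrimes` under `MP_fc2ced_ag`.
-/

set_option autoImplicit false

open CategoryTheory MonoidalCategory

universe v u

namespace Pool.Agent.Results.MP_6e5bed_ag.LocalOnPrimes

open Pool.Agent.TH829.Ten (Family IsTensorIdeal IsPrimeIdeal)
open Pool.Agent.TH829.Rig (KimuraFiniteMod)
open Pool.Agent.TH90.Kim (KimuraFinite)

/-- (1) The object `M` is Kimura-finite modulo the tensor ideal `I` if and only if it is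
Kimura-finite modulo each prime tensor ideal containing `I`. (2) If `𝒜` is idempotent complete then
`M` is Kimura-finite if and only if it is Kimura-finite modulo each prime tensor ideal. -/
theorem result {𝒜 : Type u} [Category.{v} 𝒜] [MonoidalCategory 𝒜] [SymmetricCategory 𝒜]
    [Preadditive 𝒜] [MonoidalPreadditive 𝒜] [Linear ℚ 𝒜] [MonoidalLinear ℚ 𝒜]
    [∀ X : 𝒜, HasRightDual X] (hunit : ∀ f : 𝟙_ 𝒜 ⟶ 𝟙_ 𝒜, ∃ q : ℚ, f = q • 𝟙 (𝟙_ 𝒜))
    (hne : 𝟙 (𝟙_ 𝒜) ≠ 0) (M : 𝒜) :
    (∀ I : Family 𝒜, IsTensorIdeal I → (KimuraFiniteMod I M ↔
      ∀ P : Family 𝒜, IsPrimeIdeal P → I ≤ P → KimuraFiniteMod P M)) ∧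
    (IsIdempotentComplete 𝒜 →
      (KimuraFinite M ↔ ∀ P : Family 𝒜, IsPrimeIdeal P → KimuraFiniteMod P M)) :=
  ⟨fun _ hI => Pool.Agent.TH829.Rig.kimuraMod_iff ⟨hunit, hne⟩ hI M,
    fun _ => Pool.Agent.TH829.Rig.kimura_iff ⟨hunit, hne⟩ M⟩

end Pool.Agent.Results.MP_6e5bed_ag.LocalOnPrimes
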