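import Pool.Agent.TH90.Kim.Light

/-!
# Tensor factors of Kimura-finite noncommutative motives

`𝒜` is a `ℚ`-linear, idempotent complete, symmetric monoidal category with duals in which the
endomorphisms of the unit object are the rational multiples of the identity, and `F` is a
realisation: a symmetric monoidal functor to finite-dimensional super vector spaces over a field
`K` of characteristic zero (`SuperRealisation`). The example is the category `NChow(k)_ℚ` of
noncommutative Chow motives with periodic cyclic homology (`K = k`) if the characteristic is zero,
and with topological periodic cyclic homology (of the base change to the perfect closure) in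
positive characteristic; the unit object is `U(k)`, and its endomorphism ring is `K₀(k)_ℚ = ℚ`.

`T P n` is the `n`-th tensor power of `P`, `Adj P n s` says that `s` is the transposition of two
neighbouring factors, and `PowZero ε P n` that all morphisms `g` on `T P n` with `s ≫ g = ε • g` for
all these `s` are zero, i.e. that the `n`-th symmetric power (`ε = 1`) or exterior power (`ε = -1`)
of `P` is zero. `KimuraFinite M`: `M` is the direct sum of an object `P` with a vanishing exterior
power and an object `Q` with a vanishing symmetric power.

Theorem. If `M ⊗ N` is Kimura-finite and the realisations of `M` and `N` are not zero, then `M` and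
`N` are Kimura-finite.

Steps of the proof. (1) The parity of the realisation of `M ⊗ N` is induced by an endomorphism `σ`,
and the morphisms with realisation zero form a nilpotent ideal of `End (M ⊗ N)` (theorems of Cayley
and Hamilton, and of Nagata and Higman). (2) The partial trace of `σ` is an endomorphism of `M`
which acts as a non-zero multiple of the parity, and the partial trace of `f ⊗ g` shows that the
endomorphisms of `M` with realisation zero are nilpotent. Hence the projectors onto the even and
the odd part lift to a decomposition of `M`, and of `N`. (3) The tensor products of the parts are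
direct summands of `M ⊗ N` of pure parity, so their exterior or symmetric powers vanish. (4) The
partial traces of a product of (anti)symmetrisers of `M` and of `N` show that then the exterior or
symmetric power of the part of `M` vanishes, because the dimension of the part of `N` has the
appropriate sign.
-/

open CategoryTheory MonoidalCategory Limits BraidedCategory

universe u v w

namespace Pool.Agent.Results.MP_6e5bed_ag.TensorCancellation

open Pool.Agent.TH90.Kim

/-- If `M ⊗ N` is Kimura-finite and the realisations of `M` and `N` are not zero, then `M` and `N`
are Kimura-finite. -/
theorem result {𝒜 : Type u} [Category.{v} 𝒜] [MonoidalCategory 𝒜] [SymmetricCategory 𝒜]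
    [Preadditive 𝒜] [MonoidalPreadditive 𝒜] [Linear ℚ 𝒜] [MonoidalLinear ℚ 𝒜]
    [IsIdempotentComplete 𝒜] [∀ X : 𝒜, HasRightDual X]
    (hunit : ∀ f : 𝟙_ 𝒜 ⟶ 𝟙_ 𝒜, ∃ q : ℚ, f = q • 𝟙 (𝟙_ 𝒜))
    {K : Type w} [Field K] [CharZero K] (F : SuperRealisation 𝒜 K) (M N : 𝒜)
    (hM : ∃ x : F.V M, x ≠ 0) (hN : ∃ y : F.V N, y ≠ 0) (h : KimuraFinite (M ⊗ N)) :
    KimuraFinite M ∧ KimuraFinite N :=
  ⟨F.toReal.kimuraFinite_left hunit hM hN h, F.toReal.kimuraFinite_right hunit hM hN h⟩

end Pool.Agent.Results.MP_6e5bed_ag.TensorCancellation
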